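import Pool.Agent.Y929.ZS.Diag

/-! SV-ROOTV (helper349 for helper142): the eigenbasis, symmetric and alternating forms.
Adapted from Y929/ZS/Diag.lean and Y961/SU/Diag.lean. -/

set_option autoImplicit false
set_option linter.unusedSectionVars false

open Matrix

namespace Pool.Agent.Y349.SV

open Pool.Agent.Y929.ZS (EE sep)

section

variable {F ι : Type} [Field F] [CharZero F] [Fintype ι] [DecidableEq ι]

/-- the data in the eigenbasis -/
structure Dat (x : ι → F) (c : F) (J : Matrix ι ι F) (s : ι → ι) (ε : F) (T : ι → ι → Prop)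
    (𝔤 : Submodule F (Matrix ι ι F)) : Prop where
  x0 : ∀ a, x a ≠ 0
  xs : ∀ a, x a * x (s a) = c
  ss : ∀ a, s (s a) = a
  Jz : ∀ a b, b ≠ s a → J a b = 0
  Jn : ∀ a, J a (s a) ≠ 0
  Js : ∀ a, J (s a) a = ε * J a (s a)
  εp : ε = 1 ∨ ε = -1
  Tr : ∀ a, T a a
  Ts : ∀ a b, T a b → T b a
  Tt : ∀ a b d, T a b → T b d → T a d
  Tσ : ∀ a, T a (s a)
  gen : ∀ a b d e, a ≠ b → x a * x e = x d * x b → (d = a ∧ e = b) ∨ (d = s b ∧ e = s a)
  sim : ∀ Z ∈ 𝔤, ∃ μ : F, Zᵀ * J + J * Z = μ • J
  br : ∀ X ∈ 𝔤, ∀ Y ∈ 𝔤, X * Y - Y * X ∈ 𝔤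
  ad : ∀ Z ∈ 𝔤, (Matrix.of fun a b => x a / x b * Z a b) ∈ 𝔤
  zero : ∀ Z ∈ 𝔤, ∀ a b, Z a b ≠ 0 → T a b
  full : ∀ a b, T a b → ∀ W : Submodule F (ι → F), (∀ Z ∈ 𝔤, ∀ w ∈ W, Z *ᵥ w ∈ W) →
    Pi.single b (1 : F) ∈ W → Pi.single a (1 : F) ∈ W

variable {x : ι → F} {c : F} {J : Matrix ι ι F} {s : ι → ι} {ε : F} {T : ι → ι → Prop}
  {𝔤 : Submodule F (Matrix ι ι F)}

theorem rel (h : Dat x c J s ε T 𝔤) {Z : Matrix ι ι F} {μ : F} (hZ : Zᵀ * J + J * Z = μ • J)
    (a b : ι) :
    J b (s b) * Z b a + J a (s a) * Z (s a) (s b) = μ * (if s b = s a then J a (s a) else 0) := by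
  have h1 := congrFun (congrFun hZ a) (s b)
  simp only [Matrix.add_apply, Matrix.mul_apply, Matrix.transpose_apply, Matrix.smul_apply,
    smul_eq_mul] at h1
  rw [Finset.sum_eq_single b, Finset.sum_eq_single (s a)] at h1
  · rw [mul_comm (J b (s b)) (Z b a), h1]
    congr 1
    by_cases hab : s b = s a
    · rw [if_pos hab, hab]
    · rw [if_neg hab, h.Jz _ _ hab]
  · intro k _ hk
    rw [h.Jz a k hk, zero_mul]
  · intro hk
    exact absurd (Finset.mem_univ _) hk
  · intro k _ hk
    have : s b ≠ s k := by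
      intro h2
      apply hk
      rw [← h.ss k, ← h2, h.ss]
    rw [h.Jz k (s b) this, mul_zero]
  · intro hk
    exact absurd (Finset.mem_univ _) hk

/-- polynomials in the adjoint action -/
theorem ad_poly (h : Dat x c J s ε T 𝔤) {Z : Matrix ι ι F} (hZ : Z ∈ 𝔤) (p : Polynomial F) :
    (Matrix.of fun a b => p.eval (x a / x b) * Z a b) ∈ 𝔤 := by
  induction p using Polynomial.induction_on with
  | C r =>
    have : (Matrix.of fun a b => (Polynomial.C r).eval (x a / x b) * Z a b) = r • Z := by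
      ext a b
      simp
    rw [this]
    exact 𝔤.smul_mem _ hZ
  | add p q hp hq =>
    have : (Matrix.of fun a b => (p + q).eval (x a / x b) * Z a b) =
        (Matrix.of fun a b => p.eval (x a / x b) * Z a b) +
        (Matrix.of fun a b => q.eval (x a / x b) * Z a b) := by
      ext a b
      simp [add_mul]
    rw [this]
    exact 𝔤.add_mem hp hq
  | monomial n r hp =>
    have h1 := h.ad _ hp
    have : (Matrix.of fun a b => (Polynomial.C r * Polynomial.X ^ (n + 1)).eval (x a / x b) * Z a b) =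
        (Matrix.of fun a b => x a / x b * (Matrix.of fun a b =>
          (Polynomial.C r * Polynomial.X ^ n).eval (x a / x b) * Z a b) a b) := by
      ext a b
      simp only [Matrix.of_apply, Polynomial.eval_mul, Polynomial.eval_C, Polynomial.eval_pow,
        Polynomial.eval_X]
      ring
    rw [this]
    exact h1

theorem eps_mul (h : Dat x c J s ε T 𝔤) : ε * ε = 1 := by
  rcases h.εp with h1 | h1 <;> rw [h1] <;> ring

theorem eps_ne (h : Dat x c J s ε T 𝔤) : ε ≠ 0 := by
  intro h0
  have := eps_mul h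
  rw [h0, mul_zero] at this
  exact zero_ne_one this

/-- an entry on the antidiagonal vanishes for symmetric forms -/
theorem entry_rel (h : Dat x c J s ε T 𝔤) {Z : Matrix ι ι F} {μ : F}
    (hZ : Zᵀ * J + J * Z = μ • J) {a b : ι} (hab : a ≠ b) :
    Z (s b) (s a) = -(J a (s a) / J b (s b)) * Z a b := by
  have hjb := h.Jn b
  have h2 := rel h hZ b a
  have h3 : s a ≠ s b := by
    intro h4
    apply hab
    rw [← h.ss a, h4, h.ss]
  rw [if_neg h3, mul_zero] at h2
  field_simp
  linear_combination h2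

theorem eps_of (h : Dat x c J s ε T 𝔤) {Z : Matrix ι ι F} {μ : F}
    (hZ : Zᵀ * J + J * Z = μ • J) {a b : ι} (hab : a ≠ b) (hne : Z a b ≠ 0) (hb : b = s a) :
    ε = -1 := by
  rcases h.εp with h1 | h1
  · exfalso
    have h2 := entry_rel h hZ hab
    have hsb : s b = a := by rw [hb, h.ss]
    have h3 : J a (s a) / J b (s b) = 1 := by
      have h4 := h.Js a
      rw [h1, one_mul, ← hb] at h4
      rw [hsb, h4, ← hb]
      have h5 := h.Jn a
      rw [← hb] at h5
      exact div_self h5
    rw [h3, hsb, ← hb] at h2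
    apply hne
    have h4 : (2 : F) * Z a b = 0 := by linear_combination h2
    rcases mul_eq_zero.1 h4 with h5 | h5
    · norm_num at h5
    · exact h5
  · exact h1

/-- the ratio on the antidiagonal for alternating forms -/
theorem ratio (h : Dat x c J s ε T 𝔤) (hε : ε = -1) {a b : ι} (hb : b = s a) :
    J a (s a) / J b (s b) = -1 := by
  have hsb : s b = a := by rw [hb, h.ss]
  have h4 := h.Js a
  rw [hε] at h4
  have h5 := h.Jn a
  rw [hsb, hb, h4]
  field_simp

/-- STEP 1 -/
theorem root_of (h : Dat x c J s ε T 𝔤) {Z : Matrix ι ι F} (hZ : Z ∈ 𝔤) {a b : ι} (hab : a ≠ b)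
    (hne : Z a b ≠ 0) : EE J s a b ∈ 𝔤 := by
  classical
  obtain ⟨p, hp1, hp2⟩ := sep (x a / x b)
    (Finset.univ.image fun q : ι × ι => x q.1 / x q.2)
  have h1 := ad_poly h hZ p
  obtain ⟨μ, hμ⟩ := h.sim Z hZ
  have hjb := h.Jn b
  have hrel := entry_rel h hμ hab
  have hq0 : x (s b) / x (s a) = x a / x b := by
    rw [div_eq_div_iff (h.x0 _) (h.x0 _)]
    linear_combination h.xs b - h.xs a
  -- the entries
  have hent : ∀ d e, p.eval (x d / x e) * Z d e =
      if (d = a ∧ e = b) ∨ (d = s b ∧ e = s a) then Z d e else 0 := by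
    intro d e
    by_cases hq : x d / x e = x a / x b
    · rw [hq, hp1, one_mul]
      rw [div_eq_div_iff (h.x0 e) (h.x0 b)] at hq
      rw [if_pos]
      exact h.gen a b d e hab hq.symm
    · rw [hp2 _ (Finset.mem_image.2 ⟨(d, e), Finset.mem_univ _, rfl⟩) hq, zero_mul, if_neg]
      rintro (⟨rfl, rfl⟩ | ⟨rfl, rfl⟩)
      · exact hq rfl
      · exact hq hq0
  by_cases hb : b = s a
  · have hsb : s b = a := by rw [hb, h.ss]
    have hε := eps_of h hμ hab hne hb
    have hr := ratio h hε hb
    have h2 : EE J s a b = (2 * (Z a b)⁻¹) • (Matrix.of fun d e => p.eval (x d / x e) * Z d e) := by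
      ext d e
      simp only [EE, Matrix.of_apply, Matrix.smul_apply, smul_eq_mul]
      rw [hent, hr, hsb, ← hb]
      by_cases hc : d = a ∧ e = b
      · rw [if_pos hc, if_pos (Or.inl hc), hc.1, hc.2]
        field_simp
        norm_num
      · rw [if_neg hc, if_neg (by tauto)]
        ring
    rw [h2]
    exact 𝔤.smul_mem _ h1
  · have h2 : EE J s a b = (Z a b)⁻¹ • (Matrix.of fun d e => p.eval (x d / x e) * Z d e) := by
      ext d e
      simp only [EE, Matrix.of_apply, Matrix.smul_apply, smul_eq_mul]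
      rw [hent]
      by_cases hc : d = a ∧ e = b
      · have hc2 : ¬ (d = s b ∧ e = s a) := by
          rintro ⟨-, h4⟩
          exact hb (hc.2.symm.trans h4)
        rw [if_pos hc, if_neg hc2, if_pos (Or.inl hc), hc.1, hc.2]
        field_simp
        ring
      · by_cases hc2 : d = s b ∧ e = s a
        · rw [if_neg hc, if_pos hc2, if_pos (Or.inr hc2), hc2.1, hc2.2, hrel]
          field_simp
          ring
        · rw [if_neg hc, if_neg hc2, if_neg (by tauto)]
          ring
    rw [h2]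
    exact 𝔤.smul_mem _ h1

/-- the root vectors in terms of matrix units -/
theorem EE_eq (a b : ι) : EE J s a b = Matrix.single a b (1 : F) -
    (J a (s a) / J b (s b)) • Matrix.single (s b) (s a) (1 : F) := by
  ext p q
  simp only [EE, Matrix.of_apply, Matrix.sub_apply, Matrix.smul_apply, Matrix.single_apply,
    smul_eq_mul]
  congr 1
  · simp only [eq_comm]
  · simp only [eq_comm]

/-- the roots in `𝔤` -/
def R (J : Matrix ι ι F) (s : ι → ι) (ε : F) (T : ι → ι → Prop)
    (𝔤 : Submodule F (Matrix ι ι F)) (a b : ι) : Prop :=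
  a ≠ b ∧ T a b ∧ (b = s a → ε = -1) ∧ EE J s a b ∈ 𝔤

theorem R_of (h : Dat x c J s ε T 𝔤) {Z : Matrix ι ι F} (hZ : Z ∈ 𝔤) {a b : ι} (hab : a ≠ b)
    (hne : Z a b ≠ 0) : R J s ε T 𝔤 a b := by
  obtain ⟨μ, hμ⟩ := h.sim Z hZ
  exact ⟨hab, h.zero Z hZ a b hne, eps_of h hμ hab hne, root_of h hZ hab hne⟩

/-- duality -/
theorem dual (h : Dat x c J s ε T 𝔤) {a b : ι} (hR : R J s ε T 𝔤 a b) :
    R J s ε T 𝔤 (s b) (s a) := by
  obtain ⟨hab, hT, hε, hE⟩ := hR
  refine ⟨fun h1 => hab ?_, ?_, fun h1 => hε ?_, ?_⟩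
  · rw [← h.ss a, ← h1, h.ss]
  · exact h.Tt _ _ _ (h.Ts _ _ (h.Tσ b)) (h.Tt _ _ _ (h.Ts _ _ hT) (h.Tσ a))
  · rw [h1, h.ss]
  · have hja := h.Jn a
    have hjb := h.Jn b
    have hεn := eps_ne h
    have h1 : EE J s (s b) (s a) = (-(J b (s b) / J a (s a))) • EE J s a b := by
      rw [EE_eq, EE_eq, h.ss, h.ss, h.Js, h.Js, smul_sub, smul_smul]
      have e1 : ε * J b (s b) / (ε * J a (s a)) = J b (s b) / J a (s a) := by field_simp
      have e2 : -(J b (s b) / J a (s a)) * (J a (s a) / J b (s b)) = -1 := by field_simp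
      rw [e1, e2, neg_smul, neg_smul, one_smul]
      abel
    rw [h1]
    exact 𝔤.smul_mem _ hE

/-- STEP 2 -/
theorem tr (h : Dat x c J s ε T 𝔤) {a b d : ι} (hRab : R J s ε T 𝔤 a b)
    (hRbd : R J s ε T 𝔤 b d) (had : a ≠ d) (hε : d = s a → ε = -1) :
    R J s ε T 𝔤 a d := by
  classical
  obtain ⟨hab, hTab, hεab, h1⟩ := hRab
  obtain ⟨hbd, hTbd, hεbd, h2⟩ := hRbd
  refine ⟨had, h.Tt _ _ _ hTab hTbd, hε, root_of h (h.br _ h1 _ h2) had ?_⟩
  rw [Matrix.sub_apply, Matrix.mul_apply, Matrix.mul_apply]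
  have e1 : ∀ k, EE J s a b a k = (1 + if b = s a then 1 else 0) * (if k = b then 1 else 0) := by
    intro k
    simp only [EE, Matrix.of_apply]
    by_cases hb : b = s a
    · have hsb : s b = a := by rw [hb, h.ss]
      have hr := ratio h (hεab hb) hb
      rw [hr, hsb, if_pos hb, ← hb]
      by_cases hk : k = b
      · simp [hk]
      · simp [hk]
    · have hsb : a ≠ s b := by
        intro h4
        apply hb
        rw [h4, h.ss]
      simp [hb, hsb]
  have e2 : ∀ k, EE J s b d k d = (1 + if b = s d then 1 else 0) * (if k = b then 1 else 0) := by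
    intro k
    simp only [EE, Matrix.of_apply]
    by_cases hb : b = s d
    · have hsb : s b = d := by rw [hb, h.ss]
      have hr := ratio h (hεbd hsb.symm) hsb.symm
      rw [hr, hsb, if_pos hb, ← hb]
      by_cases hk : k = b
      · simp [hk]
      · simp [hk]
    · have hsb : d ≠ s b := by
        intro h4
        apply hb
        rw [h4, h.ss]
      simp [hb, hsb]
  have e3 : ∀ k, EE J s b d a k * EE J s a b k d = -(if d = s a then 1 else 0) *
      (if k = s b then 1 else 0) := by
    intro k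
    simp only [EE, Matrix.of_apply]
    rw [if_neg (show ¬ (a = b ∧ k = d) from fun h' => hab h'.1),
      if_neg (show ¬ (k = a ∧ d = b) from fun h' => hbd h'.2.symm)]
    by_cases hd : d = s a
    · have hsd : s d = a := by rw [hd, h.ss]
      by_cases hk : k = s b
      · rw [if_pos ⟨hsd.symm, hk⟩, if_pos ⟨hk, hd⟩, if_pos hd, if_pos hk]
        have hjb := h.Jn b
        have hja := h.Jn a
        rw [hsd, hd, h.Js, hε hd]
        field_simp
        ring
      · rw [if_neg (fun h' => hk h'.2), if_neg hk]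
        ring
    · rw [if_neg (show ¬ (k = s b ∧ d = s a) from fun h' => hd h'.2), if_neg hd]
      ring
  simp only [e1, e2, e3]
  have e4 : ∀ u v : F, ∑ k, (u * if k = b then (1 : F) else 0) * (v * if k = b then (1 : F) else 0) =
      u * v := by
    intro u v
    rw [Finset.sum_eq_single b]
    · simp
    · intro k _ hk
      simp [hk]
    · intro hk
      exact absurd (Finset.mem_univ _) hk
  rw [e4, ← Finset.mul_sum, Finset.sum_ite_eq' Finset.univ (s b) (fun _ => (1 : F)),
    if_pos (Finset.mem_univ _)]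
  have e5 : ((1 + if b = s a then (1 : F) else 0) * (1 + if b = s d then (1 : F) else 0) -
      -(if d = s a then (1 : F) else 0) * 1) =
      (((1 + if b = s a then 1 else 0) * (1 + if b = s d then 1 else 0) +
        if d = s a then 1 else 0 : ℕ) : F) := by
    push_cast
    ring
  rw [e5]
  exact Nat.cast_ne_zero.2 (by positivity)

/-- the closed set -/
def Pr (J : Matrix ι ι F) (s : ι → ι) (ε : F) (T : ι → ι → Prop)
    (𝔤 : Submodule F (Matrix ι ι F)) (b d : ι) : Prop :=
  d = b ∨ R J s ε T 𝔤 d b ∨ (d = s b ∧ ∃ f, R J s ε T 𝔤 d f ∧ R J s ε T 𝔤 f b)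

theorem step (h : Dat x c J s ε T 𝔤) {b d e : ι} (hde : R J s ε T 𝔤 d e)
    (hP : Pr J s ε T 𝔤 b e) : Pr J s ε T 𝔤 b d := by
  by_cases hdb : d = b
  · exact Or.inl hdb
  rcases hP with rfl | hR | ⟨he, f, hf1, hf2⟩
  · exact Or.inr (Or.inl hde)
  · by_cases hds : d = s b
    · exact Or.inr (Or.inr ⟨hds, e, hde, hR⟩)
    · refine Or.inr (Or.inl (tr h hde hR hdb fun h1 => absurd ?_ hds))
      rw [h1, h.ss]
  · have hds : d ≠ s b := by
      intro h1
      exact hde.1 (h1.trans he.symm)
    have hbd : b ≠ s d := by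
      intro h1
      exact hds (by rw [h1, h.ss])
    refine Or.inr (Or.inl ?_)
    by_cases hdf : d = f
    · rw [hdf]; exact hf2
    by_cases hfd : f = s d
    · have h1 := dual h hf1
      rwa [hfd, he, h.ss, h.ss] at h1
    · have h1 := tr h hde hf1 hdf (fun h' => absurd h' hfd)
      exact tr h h1 hf2 hdb (fun h' => absurd h' hbd)

/-- STEP 3 -/
theorem reach (h : Dat x c J s ε T 𝔤) (a b : ι) (hT : T a b) : Pr J s ε T 𝔤 b a := by
  classical
  let W : Submodule F (ι → F) :=
    { carrier := {w | ∀ d, w d ≠ 0 → Pr J s ε T 𝔤 b d}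
      add_mem' := by
        intro v w hv hw d hd
        by_cases h1 : v d = 0
        · refine hw d fun h2 => hd ?_
          rw [Pi.add_apply, h1, h2, add_zero]
        · exact hv d h1
      zero_mem' := fun d hd => absurd rfl hd
      smul_mem' := by
        intro r v hv d hd
        refine hv d fun h1 => hd ?_
        rw [Pi.smul_apply, h1, smul_zero] }
  have hW : ∀ w, w ∈ W ↔ ∀ d, w d ≠ 0 → Pr J s ε T 𝔤 b d := fun w => Iff.rfl
  have hst : ∀ Z ∈ 𝔤, ∀ w ∈ W, Z *ᵥ w ∈ W := by
    intro Z hZ w hw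
    rw [hW] at hw ⊢
    intro d hd
    have h1 : (Z *ᵥ w) d = ∑ e, Z d e * w e := rfl
    rw [h1] at hd
    obtain ⟨e, -, he⟩ := Finset.exists_ne_zero_of_sum_ne_zero hd
    have hZe : Z d e ≠ 0 := left_ne_zero_of_mul he
    have hwe : w e ≠ 0 := right_ne_zero_of_mul he
    by_cases hde : d = e
    · rw [hde]
      exact hw e hwe
    · exact step h (R_of h hZ hde hZe) (hw e hwe)
  have h2 : Pi.single b (1 : F) ∈ W := by
    rw [hW]
    intro d hd
    left
    by_contra hne
    exact hd (Pi.single_eq_of_ne hne 1)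
  have h3 := h.full a b hT W hst h2
  exact (hW _).1 h3 a (by rw [Pi.single_eq_same]; exact one_ne_zero)

theorem all_R (h : Dat x c J s ε T 𝔤) {a b : ι} (hab : a ≠ b) (hT : T a b)
    (hε : b = s a → ε = -1) : R J s ε T 𝔤 a b := by
  rcases reach h a b hT with h1 | h1 | ⟨_, f, h1, h2⟩
  · exact absurd h1 hab
  · exact h1
  · exact tr h h1 h2 hab hε

/-- a difference of diagonal matrices -/
theorem brk (h : Dat x c J s ε T 𝔤) {a b : ι} (h1 : EE J s a b ∈ 𝔤) (h2 : EE J s b a ∈ 𝔤)
    (n1 : b ≠ s a) : EE J s a a - EE J s b b ∈ 𝔤 := by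
  have h3 := h.br _ h1 _ h2
  have hja := h.Jn a
  have hjb := h.Jn b
  have n2 : a ≠ s b := by
    intro h4
    exact n1 (by rw [h4, h.ss])
  have h4 : EE J s a a - EE J s b b =
      EE J s a b * EE J s b a - EE J s b a * EE J s a b := by
    have r1 : J a (s a) / J b (s b) * (J b (s b) / J a (s a)) = 1 := by field_simp
    have r2 : J b (s b) / J a (s a) * (J a (s a) / J b (s b)) = 1 := by field_simp
    rw [EE_eq, EE_eq, EE_eq, EE_eq, div_self hja, div_self hjb, one_smul, one_smul]
    simp only [sub_mul, mul_sub, Matrix.smul_mul, Matrix.mul_smul,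
      Matrix.single_mul_single_same, Matrix.single_mul_single_of_ne _ _ _ _ n1,
      Matrix.single_mul_single_of_ne _ _ _ _ n2, Matrix.single_mul_single_of_ne _ _ _ _ n1.symm,
      Matrix.single_mul_single_of_ne _ _ _ _ n2.symm, smul_zero, sub_zero, mul_one, smul_smul, r1,
      r2, one_smul]
    abel
  rw [h4]
  exact h3

/-- STEP 4 -/
theorem all_diag (h : Dat x c J s ε T 𝔤) (a : ι) : EE J s a a ∈ 𝔤 := by
  classical
  have hja := h.Jn a
  by_cases hsa : s a = a
  · have h1 : EE J s a a = 0 := by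
      rw [EE_eq, div_self hja, one_smul, hsa, sub_self]
    rw [h1]
    exact 𝔤.zero_mem
  rcases h.εp with hε | hε
  · -- symmetric forms
    rcases reach h a (s a) (h.Tσ a) with h1 | h1 | ⟨_, f, h1, h2⟩
    · exact absurd h1.symm hsa
    · exfalso
      have h2 := h1.2.2.1 rfl
      rw [hε] at h2
      norm_num at h2
    · have hfa : f ≠ a := h1.1.symm
      have hfsa : f ≠ s a := h2.1
      have hafs : a ≠ s f := by
        intro h3
        exact hfsa (by rw [h3, h.ss])
      have hsfa : s f ≠ a := hafs.symm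
      have hsfsa : s f ≠ s a := by
        intro h3
        exact hfa (by rw [← h.ss f, h3, h.ss])
      have h3 := all_R h hfa (h.Ts _ _ h1.2.1) (fun h' => absurd h' hafs)
      have h4 := brk h h1.2.2.2 h3.2.2.2 hfsa
      have hTf : T a (s f) := h.Tt _ _ _ h1.2.1 (h.Tσ f)
      have h5 := all_R h hafs hTf (fun h' => absurd h' hsfsa)
      have h6 := all_R h hsfa (h.Ts _ _ hTf) (fun h' => absurd (by rw [h', h.ss]) hfa)
      have h7 := brk h h5.2.2.2 h6.2.2.2 hsfsa
      have h8 : EE J s (s f) (s f) = - EE J s f f := by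
        rw [EE_eq, EE_eq, div_self (h.Jn _), div_self (h.Jn _), one_smul, one_smul, h.ss]
        abel
      rw [h8] at h7
      have h9 : EE J s a a = ((1 : F) / 2) • ((EE J s a a - EE J s f f) +
          (EE J s a a - -EE J s f f)) := by
        have e : (EE J s a a - EE J s f f) + (EE J s a a - -EE J s f f) = (2 : F) • EE J s a a := by
          rw [two_smul]; abel
        rw [e, smul_smul]
        norm_num
      rw [h9]
      exact 𝔤.smul_mem _ (𝔤.add_mem h4 h7)
  · -- alternating forms
    have h1 := (all_R h (Ne.symm hsa) (h.Tσ a) (fun _ => hε)).2.2.2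
    have h2 := (all_R h hsa (h.Ts _ _ (h.Tσ a)) (fun _ => hε)).2.2.2
    have h3 := 𝔤.smul_mem ((1 : F) / 4) (h.br _ h1 _ h2)
    have r1 := ratio h hε (a := a) (b := s a) rfl
    have r2 : J (s a) (s (s a)) / J a (s a) = -1 := by
      have := ratio h hε (a := s a) (b := a) (h.ss a).symm
      exact this
    have h4 : EE J s a a = ((1 : F) / 4) • (EE J s a (s a) * EE J s (s a) a -
        EE J s (s a) a * EE J s a (s a)) := by
      rw [EE_eq a a, EE_eq a (s a), EE_eq (s a) a, r1, r2, div_self hja, one_smul, h.ss]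
      have e1 : Matrix.single a (s a) (1 : F) - (-1 : F) • Matrix.single a (s a) (1 : F) =
          (2 : F) • Matrix.single a (s a) (1 : F) := by
        rw [neg_smul, one_smul, two_smul]; abel
      have e2 : Matrix.single (s a) a (1 : F) - (-1 : F) • Matrix.single (s a) a (1 : F) =
          (2 : F) • Matrix.single (s a) a (1 : F) := by
        rw [neg_smul, one_smul, two_smul]; abel
      rw [e1, e2]
      simp only [Matrix.smul_mul, Matrix.mul_smul, Matrix.single_mul_single_same, mul_one,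
        smul_smul, smul_sub]
      norm_num
    rw [h4]
    exact h3

/-- the theorem in the eigenbasis -/
theorem diag (h : Dat x c J s ε T 𝔤) (X : Matrix ι ι F) (hX : Xᵀ * J + J * X = 0)
    (hXT : ∀ a b, X a b ≠ 0 → T a b) : X ∈ 𝔤 := by
  classical
  have hX' : Xᵀ * J + J * X = (0 : F) • J := by rw [hX, zero_smul]
  have hrel : ∀ a b, X (s b) (s a) = -(J a (s a) / J b (s b)) * X a b := by
    intro a b
    have h2 := rel h hX' b a
    rw [zero_mul] at h2
    have hjb := h.Jn b
    field_simp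
    linear_combination h2
  have h1 : X = ((1 : F) / 2) • ∑ a, ∑ b, X a b • EE J s a b := by
    ext d e
    rw [Matrix.smul_apply, Matrix.sum_apply]
    simp only [Matrix.sum_apply, Matrix.smul_apply, smul_eq_mul, EE, Matrix.of_apply]
    have g1 : ∀ a b, X a b * ((if d = a ∧ e = b then (1 : F) else 0) -
        J a (s a) / J b (s b) * (if d = s b ∧ e = s a then (1 : F) else 0)) =
        (if d = a then (if e = b then X d e else 0) else 0) +
        (if s e = a then (if s d = b then X d e else 0) else 0) := by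
      intro a b
      have g2 : (if d = a ∧ e = b then (1 : F) else 0) * X a b =
          (if d = a then (if e = b then X d e else 0) else 0) := by
        by_cases hd : d = a <;> by_cases he : e = b <;> simp [hd, he]
      have g3 : -(J a (s a) / J b (s b)) * X a b * (if d = s b ∧ e = s a then (1 : F) else 0) =
          (if s e = a then (if s d = b then X d e else 0) else 0) := by
        by_cases hd : s d = b
        · by_cases he : s e = a
          · have hd' : d = s b := by rw [← hd, h.ss]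
            have he' : e = s a := by rw [← he, h.ss]
            rw [if_pos ⟨hd', he'⟩, if_pos he, if_pos hd, mul_one, ← hrel, ← hd', ← he']
          · rw [if_neg (fun h' => he (by rw [h'.2, h.ss])), if_neg he, mul_zero]
        · rw [if_neg (fun h' => hd (by rw [h'.1, h.ss])), if_neg hd, ite_self, mul_zero]
      rw [← g2, ← g3]
      ring
    simp only [g1, Finset.sum_add_distrib]
    simp
    ring
  rw [h1]
  refine 𝔤.smul_mem _ (𝔤.sum_mem fun a _ => 𝔤.sum_mem fun b _ => ?_)
  by_cases hab : a = b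
  · rw [hab]
    exact 𝔤.smul_mem _ (all_diag h b)
  · by_cases hX0 : X a b = 0
    · rw [hX0, zero_smul]
      exact 𝔤.zero_mem
    · exact 𝔤.smul_mem _ (all_R h hab (hXT a b hX0) (eps_of h hX' hab hX0)).2.2.2

end

end Pool.Agent.Y349.SV
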