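import Pool.Agent.Y142.SV.Stm
import Pool.Agent.Y929.ZS.Root
import Pool.Agent.Y349.SV.Diag

/-! SV-ROOTV (helper349 for helper142): the Lie algebra of the isometries commuting with selfadjoint
coefficients from one generic element. Adapted from Y961/SU/Root.lean. -/

set_option autoImplicit false

open Matrix Polynomial

namespace Pool.Agent.Y349.SV

open Pool.Agent.Y142.ZS (Sim)
open Pool.Agent.Y142.SV
open Pool.Agent.Y929.ZS (exists_diag)

theorem t_rootv : S_ROOTV := by
  classical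
  intro F _ _ N J g c 𝔤 𝒞 hHerm hc hsim hs hsep hgen h𝔤 hbr had hCg hC𝔤 hfull X hX
  obtain ⟨hJ, hJd, hcomm, hAJ⟩ := hHerm
  obtain ⟨hXC, hXJ⟩ := hX
  obtain ⟨x, P, hx, hP, hgP, hroot⟩ := exists_diag g hs hsep
  have hPd : IsUnit P.det := (Matrix.isUnit_iff_isUnit_det P).1 hP
  have hPi : P⁻¹ * P = 1 := Matrix.nonsing_inv_mul P hPd
  have hPi' : P * P⁻¹ = 1 := Matrix.mul_nonsing_inv P hPd
  obtain ⟨J', hJ'⟩ : ∃ J' : Matrix (Fin N) (Fin N) F, J' = Pᵀ * J * P := ⟨_, rfl⟩
  have hgd : g = P * diagonal x * P⁻¹ := by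
    rw [← hgP, mul_assoc, hPi', mul_one]
  -- `g` is invertible
  have hdet : g.det ≠ 0 := by
    intro h0
    have h1 := congrArg Matrix.det hsim
    rw [Matrix.det_mul, Matrix.det_mul, h0, mul_zero, Matrix.det_smul] at h1
    exact mul_ne_zero (pow_ne_zero _ hc) hJd h1.symm
  have hx0 : ∀ a, x a ≠ 0 := by
    intro a ha
    apply hdet
    rw [hgd, Matrix.det_mul, Matrix.det_mul, Matrix.det_diagonal,
      Finset.prod_eq_zero (Finset.mem_univ a) ha, mul_zero, zero_mul]
  have hDJ : diagonal x * J' * diagonal x = c • J' := by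
    have h1 : (P * diagonal x)ᵀ * J * (P * diagonal x) = c • J' := by
      rw [← hgP, Matrix.transpose_mul]
      calc Pᵀ * gᵀ * J * (g * P) = Pᵀ * (gᵀ * J * g) * P := by noncomm_ring
        _ = c • J' := by
          rw [hsim, hJ']
          simp [mul_assoc]
    rw [← h1, Matrix.transpose_mul, Matrix.diagonal_transpose, hJ']
    noncomm_ring
  have hent : ∀ a b, x a * x b * J' a b = c * J' a b := by
    intro a b
    have h1 := congrFun (congrFun hDJ a) b
    rw [Matrix.mul_diagonal, Matrix.diagonal_mul, Matrix.smul_apply, smul_eq_mul] at h1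
    rw [← h1]
    ring
  obtain ⟨ε, hεp, hJt⟩ : ∃ ε : F, (ε = 1 ∨ ε = -1) ∧ J'ᵀ = ε • J' := by
    rcases hJ with h1 | h1
    · refine ⟨1, Or.inl rfl, ?_⟩
      rw [hJ', Matrix.transpose_mul, Matrix.transpose_mul, Matrix.transpose_transpose, h1, one_smul]
      noncomm_ring
    · refine ⟨-1, Or.inr rfl, ?_⟩
      rw [hJ', Matrix.transpose_mul, Matrix.transpose_mul, Matrix.transpose_transpose, h1, neg_smul,
        one_smul]
      noncomm_ring
  have hJe : ∀ a b, J' b a = ε * J' a b := by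
    intro a b
    have h2 := congrFun (congrFun hJt a) b
    rw [Matrix.transpose_apply, Matrix.smul_apply, smul_eq_mul] at h2
    exact h2
  have hε0 : ε ≠ 0 := by
    rcases hεp with h1 | h1 <;> rw [h1] <;> norm_num
  have hJs : ∀ a b, J' a b ≠ 0 → J' b a ≠ 0 := by
    intro a b hab
    rw [hJe]
    exact mul_ne_zero hε0 hab
  have hJd' : J'.det ≠ 0 := by
    rw [hJ', Matrix.det_mul, Matrix.det_mul, Matrix.det_transpose]
    exact mul_ne_zero (mul_ne_zero hPd.ne_zero hJd) hPd.ne_zero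
  have hex : ∀ a, ∃ b, J' a b ≠ 0 := by
    intro a
    by_contra hcon
    push Not at hcon
    exact hJd' (Matrix.det_eq_zero_of_row_eq_zero a hcon)
  choose s hsn using hex
  have hxs : ∀ a, x a * x (s a) = c := fun a => mul_right_cancel₀ (hsn a) (hent a (s a))
  have huniq : ∀ a b, J' a b ≠ 0 → b = s a := by
    intro a b hb
    have h1 := mul_right_cancel₀ hb (hent a b)
    apply hx
    exact mul_left_cancel₀ (hx0 a) (h1.trans (hxs a).symm)
  have hss : ∀ a, s (s a) = a := by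
    intro a
    exact (huniq (s a) a (hJs _ _ (hsn a))).symm
  -- the conjugated Lie algebra
  let φ : Matrix (Fin N) (Fin N) F →ₗ[F] Matrix (Fin N) (Fin N) F :=
    { toFun := fun Z => P * Z * P⁻¹
      map_add' := fun Z W => by rw [mul_add, add_mul]
      map_smul' := fun r Z => by simp }
  let 𝔥 : Submodule F (Matrix (Fin N) (Fin N) F) := 𝔤.comap φ
  have h𝔥 : ∀ Z, Z ∈ 𝔥 ↔ P * Z * P⁻¹ ∈ 𝔤 := fun Z => Iff.rfl
  have hback : ∀ Z, P * (P⁻¹ * Z * P) * P⁻¹ = Z := by
    intro Z
    calc P * (P⁻¹ * Z * P) * P⁻¹ = (P * P⁻¹) * Z * (P * P⁻¹) := by noncomm_ring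
      _ = Z := by rw [hPi', one_mul, mul_one]
  have hback' : ∀ Z, P⁻¹ * (P * Z * P⁻¹) * P = Z := by
    intro Z
    calc P⁻¹ * (P * Z * P⁻¹) * P = (P⁻¹ * P) * Z * (P⁻¹ * P) := by noncomm_ring
      _ = Z := by rw [hPi, one_mul, mul_one]
  have hmul : ∀ Z W, P * (Z * W) * P⁻¹ = P * Z * P⁻¹ * (P * W * P⁻¹) := by
    intro Z W
    calc P * (Z * W) * P⁻¹ = P * Z * 1 * W * P⁻¹ := by noncomm_ring
      _ = P * Z * P⁻¹ * (P * W * P⁻¹) := by
        rw [← hPi]
        noncomm_ring
  have hPinj : ∀ Z W, P * Z * P⁻¹ = P * W * P⁻¹ → Z = W := by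
    intro Z W h1
    rw [← hback' Z, h1, hback']
  have hconv : ∀ (Z : Matrix (Fin N) (Fin N) F) (μ : F),
      (P * Z * P⁻¹)ᵀ * J + J * (P * Z * P⁻¹) = μ • J → Zᵀ * J' + J' * Z = μ • J' := by
    intro Z μ h1
    have h2 : (P * Z * P⁻¹)ᵀ = P⁻¹ᵀ * Zᵀ * Pᵀ := by
      rw [Matrix.transpose_mul, Matrix.transpose_mul, mul_assoc]
    have h3 : Pᵀ * P⁻¹ᵀ = 1 := by rw [← Matrix.transpose_mul, hPi, Matrix.transpose_one]
    calc Zᵀ * J' + J' * Z = (Pᵀ * P⁻¹ᵀ) * Zᵀ * (Pᵀ * J * P) + (Pᵀ * J * P) * Z * (P⁻¹ * P) := by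
          rw [h3, hPi, one_mul, mul_one, hJ']
      _ = Pᵀ * ((P⁻¹ᵀ * Zᵀ * Pᵀ) * J + J * (P * Z * P⁻¹)) * P := by noncomm_ring
      _ = Pᵀ * (μ • J) * P := by rw [← h2, h1]
      _ = μ • J' := by rw [hJ']; simp [mul_assoc]
  -- the coefficients
  let κ : Matrix (Fin N) (Fin N) F →ₐ[F] Matrix (Fin N) (Fin N) F :=
    AlgHom.ofLinearMap φ (by
      show P * 1 * P⁻¹ = 1
      rw [mul_one, hPi']) hmul
  let 𝒜 : Subalgebra F (Fin N → F) := 𝒞.comap (κ.comp (Matrix.diagonalAlgHom F))
  have h𝒜 : ∀ α, α ∈ 𝒜 ↔ P * diagonal α * P⁻¹ ∈ 𝒞 := fun α => Iff.rfl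
  have hdiagC : ∀ A ∈ 𝒞, ∃ α ∈ 𝒜, A = P * diagonal α * P⁻¹ := by
    intro A hA
    have h1 : (P⁻¹ * A * P) * diagonal x = diagonal x * (P⁻¹ * A * P) := by
      calc (P⁻¹ * A * P) * diagonal x = P⁻¹ * A * (P * diagonal x) := by noncomm_ring
        _ = P⁻¹ * (A * g) * P := by
          rw [← hgP]
          noncomm_ring
        _ = P⁻¹ * (g * A) * P := by rw [hCg A hA]
        _ = (P⁻¹ * P) * diagonal x * (P⁻¹ * A * P) := by
          rw [hgd]
          noncomm_ring
        _ = diagonal x * (P⁻¹ * A * P) := by rw [hPi, one_mul]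
    have h2 : ∀ a b, a ≠ b → (P⁻¹ * A * P) a b = 0 := by
      intro a b hab
      have h3 := congrFun (congrFun h1 a) b
      rw [mul_diagonal, diagonal_mul] at h3
      have h4 : (x b - x a) * (P⁻¹ * A * P) a b = 0 := by linear_combination h3
      exact (mul_eq_zero.1 h4).resolve_left (sub_ne_zero.2 fun h => hab (hx h).symm)
    have h3 : P⁻¹ * A * P = diagonal (fun a => (P⁻¹ * A * P) a a) := by
      ext a b
      by_cases hab : a = b
      · rw [hab, diagonal_apply_eq]
      · rw [h2 a b hab, diagonal_apply_ne _ hab]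
    have h4 : P * diagonal (fun a => (P⁻¹ * A * P) a a) * P⁻¹ = A := by
      rw [← h3, hback]
    refine ⟨fun a => (P⁻¹ * A * P) a a, ?_, h4.symm⟩
    rw [h𝒜, h4]
    exact hA
  have hJent : ∀ α α' : Fin N → F, (P * diagonal α * P⁻¹)ᵀ * J = J * (P * diagonal α' * P⁻¹) →
      ∀ a, α a = α' (s a) := by
    intro α α' hyp a
    have h2 : (P * diagonal α * P⁻¹)ᵀ = P⁻¹ᵀ * diagonal α * Pᵀ := by
      rw [Matrix.transpose_mul, Matrix.transpose_mul, Matrix.diagonal_transpose, mul_assoc]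
    have h3 : Pᵀ * P⁻¹ᵀ = 1 := by rw [← Matrix.transpose_mul, hPi, Matrix.transpose_one]
    have h1 : diagonal α * J' = J' * diagonal α' := by
      calc diagonal α * J' = (Pᵀ * P⁻¹ᵀ) * diagonal α * (Pᵀ * J * P) := by
            rw [h3, one_mul, hJ']
        _ = Pᵀ * ((P⁻¹ᵀ * diagonal α * Pᵀ) * J) * P := by noncomm_ring
        _ = Pᵀ * (J * (P * diagonal α' * P⁻¹)) * P := by rw [← h2, hyp]
        _ = (Pᵀ * J * P) * diagonal α' * (P⁻¹ * P) := by noncomm_ring
        _ = J' * diagonal α' := by rw [hPi, mul_one, hJ']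
    have h4 := congrFun (congrFun h1 a) (s a)
    rw [diagonal_mul, mul_diagonal] at h4
    exact mul_right_cancel₀ (hsn a) (by rw [h4, mul_comm])
  obtain ⟨T, hT⟩ : ∃ T : Fin N → Fin N → Prop, ∀ a b, T a b ↔ ∀ α ∈ 𝒜, α a = α b :=
    ⟨_, fun _ _ => Iff.rfl⟩
  have hcom : ∀ (Z : Matrix (Fin N) (Fin N) F) (α : Fin N → F),
      P * diagonal α * P⁻¹ * (P * Z * P⁻¹) = P * Z * P⁻¹ * (P * diagonal α * P⁻¹) →
      ∀ a b, Z a b ≠ 0 → α a = α b := by
    intro Z α h1 a b hab
    rw [← hmul, ← hmul] at h1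
    have h2 := congrFun (congrFun (hPinj _ _ h1) a) b
    rw [diagonal_mul, mul_diagonal] at h2
    exact mul_right_cancel₀ hab (by rw [h2, mul_comm])
  have dat : Dat x c J' s ε T 𝔥 := by
    refine ⟨hx0, hxs, hss, ?_, hsn, fun a => hJe a (s a), hεp, ?_, ?_, ?_, ?_, ?_, ?_, ?_, ?_, ?_, ?_⟩
    · intro a b hb
      by_contra hne
      exact hb (huniq a b hne)
    · intro a
      rw [hT]
      exact fun _ _ => rfl
    · intro a b h1
      rw [hT] at h1 ⊢
      exact fun α hα => (h1 α hα).symm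
    · intro a b d h1 h2
      rw [hT] at h1 h2 ⊢
      exact fun α hα => (h1 α hα).trans (h2 α hα)
    · intro a
      rw [hT]
      intro α hα
      exact hJent α α (hAJ _ ((h𝒜 α).1 hα)) a
    · intro a b d e hab heq
      have hr : ∀ a, g.charpoly.IsRoot (x a) := by
        intro a
        rw [IsRoot.def, ← coe_aeval_eq_eval]
        exact hroot a
      have h1 := hgen _ _ _ _ (hr a) (hr b) (hr d) (hr e) (fun h' => hab (hx h')) heq
      rcases h1 with ⟨h2, h3⟩ | ⟨h2, h3⟩
      · exact Or.inl ⟨hx h2, hx h3⟩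
      · right
        refine ⟨hx ?_, hx ?_⟩
        · refine mul_right_cancel₀ (hx0 b) ?_
          rw [h2, mul_comm, hxs]
        · refine mul_right_cancel₀ (hx0 a) ?_
          rw [h3, mul_comm, hxs]
    · intro Z hZ
      obtain ⟨μ, hμ⟩ := h𝔤 _ ((h𝔥 Z).1 hZ)
      exact ⟨μ, hconv Z μ hμ⟩
    · intro Z hZ W hW
      rw [h𝔥] at hZ hW ⊢
      have h1 := hbr _ hZ _ hW
      rw [← hmul, ← hmul, ← sub_mul, ← mul_sub] at h1
      exact h1
    · intro Z hZ
      rw [h𝔥] at hZ ⊢
      have h1 := had _ hZ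
      have h2 : (Matrix.of fun a b => x a / x b * Z a b) =
          diagonal x * Z * diagonal (fun a => (x a)⁻¹) := by
        ext a b
        rw [Matrix.mul_diagonal, Matrix.diagonal_mul, Matrix.of_apply]
        ring
      have h3 : g⁻¹ = P * diagonal (fun a => (x a)⁻¹) * P⁻¹ := by
        refine Matrix.inv_eq_right_inv ?_
        have h4 : diagonal x * diagonal (fun a => (x a)⁻¹) = 1 := by
          rw [Matrix.diagonal_mul_diagonal, ← Matrix.diagonal_one]
          congr 1
          ext a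
          exact mul_inv_cancel₀ (hx0 a)
        conv_lhs => rw [hgd]
        rw [← hmul, h4, mul_one, hPi']
      have h5 : P * (Matrix.of fun a b => x a / x b * Z a b) * P⁻¹ = g * (P * Z * P⁻¹) * g⁻¹ := by
        rw [h2, h3, hmul, hmul, ← hgd]
      rw [h5]
      exact h1
    · intro Z hZ a b hab
      rw [hT]
      intro α hα
      exact hcom Z α (hC𝔤 _ ((h𝒜 α).1 hα) _ ((h𝔥 Z).1 hZ)) a b hab
    · intro a b hab W hW hbW
      have key : ∀ M ∈ Algebra.adjoin F (𝔤 : Set (Matrix (Fin N) (Fin N) F)), ∀ w ∈ W,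
          (P⁻¹ * M * P) *ᵥ w ∈ W := by
        intro M hM
        induction hM using Algebra.adjoin_induction with
        | mem M hM =>
          intro w hw
          refine hW _ ?_ w hw
          rw [h𝔥, hback]
          exact hM
        | algebraMap r =>
          intro w hw
          have h1 : P⁻¹ * (algebraMap F (Matrix (Fin N) (Fin N) F) r) * P = r • 1 := by
            rw [Algebra.algebraMap_eq_smul_one, Matrix.mul_smul, Matrix.smul_mul, mul_one, hPi]
          rw [h1, Matrix.smul_mulVec, Matrix.one_mulVec]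
          exact W.smul_mem _ hw
        | add M M' _ _ h1 h2 =>
          intro w hw
          rw [mul_add, add_mul, Matrix.add_mulVec]
          exact W.add_mem (h1 w hw) (h2 w hw)
        | mul M M' _ _ h1 h2 =>
          intro w hw
          have h3 : P⁻¹ * (M * M') * P = (P⁻¹ * M * P) * (P⁻¹ * M' * P) := by
            calc P⁻¹ * (M * M') * P = P⁻¹ * M * 1 * M' * P := by noncomm_ring
              _ = (P⁻¹ * M * P) * (P⁻¹ * M' * P) := by
                rw [← hPi']
                noncomm_ring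
          rw [h3, ← Matrix.mulVec_mulVec]
          exact h1 _ (h2 w hw)
      have hE : P * Matrix.single a b (1 : F) * P⁻¹ ∈
          Algebra.adjoin F (𝔤 : Set (Matrix (Fin N) (Fin N) F)) := by
        apply hfull
        intro A hA
        obtain ⟨α, hα, rfl⟩ := hdiagC A hA
        rw [← hmul, ← hmul]
        have h1 : Matrix.single a b (1 : F) * diagonal α = diagonal α * Matrix.single a b 1 := by
          ext i j
          rw [mul_diagonal, diagonal_mul, Matrix.single_apply]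
          by_cases h2 : a = i ∧ b = j
          · rw [if_pos h2, ← h2.1, ← h2.2, (hT a b).1 hab α hα]
            ring
          · rw [if_neg h2]
            ring
        rw [h1]
      have h1 := key _ hE _ hbW
      rw [hback'] at h1
      have h2 : Matrix.single a b (1 : F) *ᵥ Pi.single b 1 = Pi.single a 1 := by
        ext i
        rw [Matrix.mulVec_single_one]
        simp only [Matrix.col_apply, Matrix.single_apply, Pi.single_apply]
        by_cases h3 : a = i
        · simp [h3]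
        · simp [h3, Ne.symm h3]
      rw [h2] at h1
      exact h1
  -- conclusion
  have h1 := diag dat (P⁻¹ * X * P) (by
    have h2 := hconv (P⁻¹ * X * P) 0 (by
      rw [hback, zero_smul]
      exact hXJ)
    rw [zero_smul] at h2
    exact h2) (by
    intro a b hab
    rw [hT]
    intro α hα
    refine hcom (P⁻¹ * X * P) α ?_ a b hab
    rw [hback]
    exact (hXC _ ((h𝒜 α).1 hα)).symm)
  rw [h𝔥, hback] at h1
  exact h1

end Pool.Agent.Y349.SV
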